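import Pool.Agent.Lib.MP_f02039_co.RedFinal
import Pool.Agent.Lib.MP_f02039_co.Final
import Pool.Agent.Lib.MP_f02039_co.Glue
import Pool.Agent.Lib.MP_f02039_co.R1
import Pool.Agent.Lib.MP_f02039_co.R4
import Pool.Agent.Lib.MP_f02039_co.R5
import Pool.Agent.Lib.MP_f02039_co.R6
import Pool.Agent.Lib.MP_f02039_co.R7
import Pool.Agent.Lib.MP_f02039_co.R8
import Pool.Agent.Lib.MP_f02039_co.R8b
import Pool.Agent.Lib.MP_f02039_co.R9R10

set_option autoImplicit false

/-!
# The group `Γ(4,0,0,0)` is finite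

The universal group of the rank 6 locally toroidal polytopes of type `{3,3,3,4,3}` with parameter
vector `(4,0,0,0)` is finite. So the assertion of Q1 fails.
-/

namespace Pool.Agent.Results.MP_f02039_co.FiniteGamma

/-- The six generators `ρ₀, …, ρ₅` of the free group. -/
def rho (i : Fin 6) : FreeGroup (Fin 6) := FreeGroup.of i

/-- `σ = ρ₂ρ₃ρ₄ρ₃ρ₂`. -/
def sig : FreeGroup (Fin 6) := rho 2 * rho 3 * rho 4 * rho 3 * rho 2

/-- `τ = ρ₅ρ₄ρ₃ρ₄ρ₅`. -/
def tau : FreeGroup (Fin 6) := rho 5 * rho 4 * rho 3 * rho 4 * rho 5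

/-- The orders `(p₁, …, p₅) = (3, 3, 3, 4, 3)` (and `0` for the other indices). -/
def p : ℕ → ℕ
  | 1 => 3
  | 2 => 3
  | 3 => 3
  | 4 => 4
  | 5 => 3
  | _ => 0

/-- The Coxeter relators of the string type `{3,3,3,4,3}`: `ρᵢ²`; `(ρᵢ₋₁ρᵢ)^pᵢ` for `i = 1, …, 5`;
`(ρᵢρⱼ)²` for `|i - j| ≥ 2`. -/
def coxeterRelators : Set (FreeGroup (Fin 6)) :=
  {w | ∃ i : Fin 6, w = rho i ^ 2} ∪
  {w | ∃ i j : Fin 6, (i : ℕ) + 1 = (j : ℕ) ∧ w = (rho i * rho j) ^ p (j : ℕ)} ∪
  {w | ∃ i j : Fin 6, 2 ≤ |((i : ℕ) : ℤ) - ((j : ℕ) : ℤ)| ∧ w = (rho i * rho j) ^ 2}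

/-- The extra relator: `(ρ₁στσ)^s` if `k = 1`, and `(ρ₁στ)^(2s)` if `k = 2`. -/
def extraRelator (k s : ℕ) : FreeGroup (Fin 6) :=
  if k = 1 then (rho 1 * sig * tau * sig) ^ s else (rho 1 * sig * tau) ^ (2 * s)

/-- The group `Γ(𝐬)`, `𝐬 = (s^k, 0^(4-k))`. -/
abbrev Gamma (k s : ℕ) : Type := PresentedGroup (coxeterRelators ∪ {extraRelator k s})

/-- The image of `ρᵢ` in `Γ(𝐬)`. -/
def gen (k s : ℕ) (i : Fin 6) : Gamma k s := PresentedGroup.of i

/-- `Γ(𝐬)` is a C-group with respect to `ρ₀, …, ρ₅`: the generators are involutions and the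
intersection property holds. -/
def IsCGroup (k s : ℕ) : Prop :=
  (∀ i : Fin 6, gen k s i ≠ 1 ∧ gen k s i ^ 2 = 1) ∧
  ∀ I J : Set (Fin 6),
    Subgroup.closure (gen k s '' I) ⊓ Subgroup.closure (gen k s '' J) =
      Subgroup.closure (gen k s '' (I ∩ J))

/-- The finiteness of all groups with a system of generators as in the library. -/
theorem main (G : Type) [Group G] (s : MPf02039.Sys G)
    (hs : Subgroup.closure (Set.range s.x) = ⊤) : Finite G :=
  MPf02039.finite_of_specs MPf02039.specR1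
    (MPf02039.specR4 MPf02039.hB1 MPf02039.hS1 MPf02039.hS2 MPf02039.hS3)
    (MPf02039.specR5 MPf02039.hB1 MPf02039.hB2 MPf02039.hS1)
    (MPf02039.R6.specR6 MPf02039.hB1 MPf02039.hB2)
    (MPf02039.R7.specR7 MPf02039.hB1 MPf02039.hB2)
    (MPf02039.specR8 MPf02039.hB1 MPf02039.hB2)
    (MPf02039.specR8b MPf02039.hB1 MPf02039.hB2)
    (MPf02039.specR9 MPf02039.hB1 MPf02039.hB2)
    MPf02039.specR10 G s hs

/-- The set of relators used in the library. -/
def libRelators : Set (FreeGroup (Fin 6)) :=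
  {w | ∃ i j : Fin 6, w = (FreeGroup.of i * FreeGroup.of j) ^
          (if i = j then (1 : ℕ) else
            if (i.val + 1 = j.val ∨ j.val + 1 = i.val) then
              (if min i.val j.val = 3 then (4 : ℕ) else 3)
            else 2)} ∪ {extraRelator 1 4}

theorem finite_lib : Finite (PresentedGroup libRelators) := by
  refine Pool.Agent.Lib.MP_f02039_co.Red.finite_presented (fun G _ s hs => main G s hs) _ ?_ ?_
  · intro i j
    exact Or.inl ⟨i, j, rfl⟩
  · refine Or.inr ?_
    rfl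

/-- In a group in which all `ρᵢ²` and `(ρᵢρⱼ)^m` are trivial, `(ρⱼρᵢ)^m` is trivial. -/
theorem swap {G : Type*} [Group G] {a b : G} (ha : a ^ 2 = 1) (hb : b ^ 2 = 1) {m : ℕ}
    (h : (a * b) ^ m = 1) : (b * a) ^ m = 1 := by
  have e1 : a⁻¹ = a := by
    rw [inv_eq_iff_mul_eq_one, ← pow_two, ha]
  have e2 : b⁻¹ = b := by
    rw [inv_eq_iff_mul_eq_one, ← pow_two, hb]
  have e : b * a = (a * b)⁻¹ := by rw [mul_inv_rev, e1, e2]
  rw [e, inv_pow, h, inv_one]

theorem gen_sq (i : Fin 6) : (PresentedGroup.mk (coxeterRelators ∪ {extraRelator 1 4})) (rho i) ^ 2 = 1 := by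
  rw [← map_pow]
  exact PresentedGroup.one_of_mem (Or.inl (Or.inl (Or.inl ⟨i, rfl⟩)))

/-- All relators of the library are trivial in `Γ(4,0,0,0)`. -/
theorem lib_trivial (w : FreeGroup (Fin 6)) (hw : w ∈ libRelators) :
    PresentedGroup.mk (coxeterRelators ∪ {extraRelator 1 4}) w = 1 := by
  rcases hw with ⟨i, j, rfl⟩ | hw
  · by_cases hij : i = j
    · subst hij
      rw [if_pos rfl, pow_one, ← pow_two, map_pow]
      exact gen_sq i
    · rw [if_neg hij]
      have key : ∀ i j : Fin 6, i.val + 1 = j.val →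
          (PresentedGroup.mk (coxeterRelators ∪ {extraRelator 1 4}) (rho i) *
            PresentedGroup.mk (coxeterRelators ∪ {extraRelator 1 4}) (rho j)) ^
            (if min i.val j.val = 3 then (4 : ℕ) else 3) = 1 := by
        intro i j h
        have h1 := PresentedGroup.one_of_mem (rels := coxeterRelators ∪ {extraRelator 1 4})
          (Or.inl (Or.inl (Or.inr ⟨i, j, h, rfl⟩)))
        rw [map_pow, map_mul] at h1
        have h2 : p (j : ℕ) = if min i.val j.val = 3 then (4 : ℕ) else 3 := by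
          clear h1 hij
          revert i j
          decide
        rw [← h2]
        exact h1
      by_cases h1 : i.val + 1 = j.val ∨ j.val + 1 = i.val
      · rw [if_pos h1, map_pow, map_mul]
        rcases h1 with h1 | h1
        · exact key i j h1
        · refine swap (gen_sq j) (gen_sq i) ?_
          rw [min_comm]
          exact key j i h1
      · rw [if_neg h1]
        refine PresentedGroup.one_of_mem (Or.inl (Or.inr ⟨i, j, ?_, rfl⟩))
        have h2 : i.val ≠ j.val := fun h => hij (Fin.ext h)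
        push Not at h1
        rw [le_abs]
        omega
  · exact PresentedGroup.one_of_mem (Or.inr hw)

theorem finite_gamma : Finite (Gamma 1 4) := by
  have hfin := finite_lib
  let f : PresentedGroup libRelators →* Gamma 1 4 :=
    PresentedGroup.toGroup (f := fun i => PresentedGroup.of i) (by
      intro r hr
      have h1 := lib_trivial r hr
      have h2 : FreeGroup.lift (fun i => (PresentedGroup.of i : Gamma 1 4)) =
          PresentedGroup.mk (coxeterRelators ∪ {extraRelator 1 4}) := by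
        ext i
        simp [PresentedGroup.of]
      rw [h2]
      exact h1)
  have hf : Function.Surjective f := by
    rw [← MonoidHom.range_eq_top, eq_top_iff, ← PresentedGroup.closure_range_of,
      Subgroup.closure_le]
    rintro _ ⟨i, rfl⟩
    exact ⟨PresentedGroup.of i, PresentedGroup.toGroup.of _⟩
  exact Finite.of_surjective f hf

/-- `Γ(4,0,0,0)` is finite; so it is not true that `Γ(𝐬)` is an infinite C-group for every
parameter vector other than `(2,0,0,0)`, `(2,2,0,0)`, `(3,0,0,0)`. -/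
theorem result :
    Finite (Gamma 1 4) ∧
    ¬ (∀ k s : ℕ, (k = 1 ∨ k = 2) → 2 ≤ s → (k, s) ≠ (1, 2) → (k, s) ≠ (2, 2) → (k, s) ≠ (1, 3) →
      Infinite (Gamma k s) ∧ IsCGroup k s) := by
  refine ⟨finite_gamma, fun h => ?_⟩
  have h1 := (h 1 4 (Or.inl rfl) (by norm_num) (by decide) (by decide) (by decide)).1
  have h2 := finite_gamma
  exact not_finite (Gamma 1 4)

end Pool.Agent.Results.MP_f02039_co.FiniteGamma
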